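import Mathlib
import Pool.Agent.Lib.Pc7f692.Operator

open Set Filter Topology
open scoped unitInterval

namespace Pool.Agent.Results.MP_c7f692_gt.ClosureChainTransitive

open Pool.Agent.Lib.Pc7f692

/-- The set `T(I)` of topologically transitive continuous self-maps of the unit interval. -/
def transMaps : Set C(I, I) :=
  {f | ∀ U V : Set I, IsOpen U → IsOpen V → U.Nonempty → V.Nonempty →
    ∃ n : ℕ, 0 < n ∧ ((⇑f)^[n] '' U ∩ V).Nonempty}

/-- A map is chain transitive if for every `ε > 0` any two points `x`, `y` are joined by a chain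
`x = x_0, x_1, ..., x_n = y` with `n ≥ 1` and `|f(x_i) - x_(i+1)| < ε`. -/
def ChainTransitive (f : C(I, I)) : Prop :=
  ∀ ε : ℝ, 0 < ε → ∀ x y : I, ∃ (n : ℕ) (c : ℕ → I), 0 < n ∧ c 0 = x ∧ c n = y ∧
    ∀ i < n, dist (f (c i)) (c (i + 1)) < ε

theorem transGen_iff (f : C(I, I)) (ε : ℝ) (x y : I) :
    Relation.TransGen (Step f ε) x y ↔ ∃ (n : ℕ) (c : ℕ → I), 0 < n ∧ c 0 = x ∧ c n = y ∧
      ∀ i < n, dist (f (c i)) (c (i + 1)) < ε := by
  constructor
  · intro h
    induction h with
    | @single b hb =>
      refine ⟨1, fun i => if i = 0 then x else b, one_pos, by simp, by simp, ?_⟩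
      intro i hi
      obtain rfl : i = 0 := by omega
      have hb' : dist (f x) b < ε := hb
      simpa using hb'
    | @tail b c _ hbc ih =>
      obtain ⟨n, d, hn, hd0, hdn, hd⟩ := ih
      refine ⟨n + 1, fun i => if i ≤ n then d i else c, Nat.succ_pos _, by simp [hd0], by simp, ?_⟩
      intro i hi
      rcases Nat.lt_or_ge i n with h | h
      · have h1 : i ≤ n := h.le
        have h2 : i + 1 ≤ n := h
        simp only [h1, h2, if_true]
        exact hd i h
      · obtain rfl : i = n := by omega
        have h2 : ¬ (i + 1 ≤ i) := by omega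
        simp only [le_refl, h2, if_true, if_false, hdn]
        exact hbc
  · rintro ⟨n, c, hn, rfl, rfl, hc⟩
    have key : ∀ k, k < n → Relation.TransGen (Step f ε) (c 0) (c (k + 1)) := by
      intro k
      induction k with
      | zero => intro hk; exact Relation.TransGen.single (hc 0 hk)
      | succ k ih => intro hk; exact (ih (by omega)).tail (hc (k + 1) hk)
    obtain ⟨m, rfl⟩ : ∃ m, n = m + 1 := ⟨n - 1, by omega⟩
    exact key m (by omega)

theorem chainTransitive_iff (f : C(I, I)) : ChainTransitive f ↔ IsChainTrans f := by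
  unfold ChainTransitive IsChainTrans
  constructor
  · intro h ε hε x y
    exact (transGen_iff f ε x y).2 (h ε hε x y)
  · intro h ε hε x y
    exact (transGen_iff f ε x y).1 (h ε hε x y)

/-- A trapping region prevents chain transitivity. -/
theorem not_chain_of_trap {f : C(I, I)} {A : Set I} (hA : IsClosed A) (hne : A.Nonempty)
    (huniv : A ≠ univ) (hf : f '' A ⊆ interior A) : ¬ IsChainTrans f := by
  intro h
  have hcomp : IsCompact (f '' A) := hA.isCompact.image f.continuous
  obtain ⟨ε, hε, hsub⟩ := hcomp.exists_thickening_subset_open isOpen_interior hf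
  obtain ⟨x, hx⟩ := hne
  obtain ⟨y, hy⟩ := (ne_univ_iff_exists_notMem A).1 huniv
  have hchain := h ε hε x y
  have key : ∀ z, Relation.TransGen (Step f ε) x z → z ∈ A := by
    intro z hz
    induction hz with
    | single hb =>
      apply interior_subset
      apply hsub
      rw [Metric.mem_thickening_iff]
      refine ⟨_, ⟨x, hx, rfl⟩, ?_⟩
      rw [dist_comm]; exact hb
    | @tail b c _ hbc ih =>
      apply interior_subset
      apply hsub
      rw [Metric.mem_thickening_iff]
      refine ⟨_, ⟨b, ih, rfl⟩, ?_⟩
      rw [dist_comm]; exact hbc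
  exact hy (key y hchain)

/-- If `f` is not chain transitive then it has a proper trapping region. -/
theorem exists_trap {f : C(I, I)} (h : ¬ IsChainTrans f) :
    ∃ A : Set I, IsClosed A ∧ A.Nonempty ∧ A ≠ univ ∧ f '' A ⊆ interior A := by
  unfold IsChainTrans at h
  push Not at h
  obtain ⟨ε, hε, x, y, hxy⟩ := h
  set A₀ : Set I := {z | Relation.TransGen (Step f ε) x z} with hA₀
  have hball : ∀ z ∈ A₀, Metric.ball (f z) ε ⊆ A₀ := by
    intro z hz w hw
    have hz' : Relation.TransGen (Step f ε) x z := hz
    refine hz'.tail ?_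
    show dist (f z) w < ε
    rw [dist_comm]; exact hw
  have hfx : Metric.ball (f x) ε ⊆ A₀ := by
    intro w hw
    refine Relation.TransGen.single ?_
    show dist (f x) w < ε
    rw [dist_comm]; exact hw
  have hopen : IsOpen A₀ := by
    rw [Metric.isOpen_iff]
    intro z hz
    have hz' : Relation.TransGen (Step f ε) x z := hz
    obtain ⟨b, hb, hbz⟩ := (Relation.TransGen.tail'_iff).1 hz'
    have hbz' : dist (f b) z < ε := hbz
    have hbA : Metric.ball (f b) ε ⊆ A₀ := by
      intro w hw
      refine Relation.TransGen.tail' hb ?_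
      show dist (f b) w < ε
      rw [dist_comm]; exact hw
    refine ⟨ε - dist (f b) z, by linarith, ?_⟩
    intro w hw
    apply hbA
    rw [Metric.mem_ball] at hw ⊢
    have := dist_triangle w z (f b)
    rw [dist_comm z] at this
    linarith
  have hthick : ∀ z ∈ closure A₀, Metric.ball (f z) (ε / 2) ⊆ A₀ := by
    intro z hz
    have hcz : ContinuousAt f z := f.continuous.continuousAt
    obtain ⟨δ, hδ, hδ'⟩ := Metric.continuousAt_iff.1 hcz (ε / 2) (half_pos hε)
    obtain ⟨b, hb, hzb⟩ := Metric.mem_closure_iff.1 hz δ hδ
    have h1 : dist (f b) (f z) < ε / 2 := hδ' (by rw [dist_comm]; exact hzb)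
    intro w hw
    apply hball b hb
    rw [Metric.mem_ball] at hw ⊢
    have := dist_triangle w (f z) (f b)
    rw [dist_comm (f z)] at this
    linarith
  have hnon : A₀.Nonempty := ⟨f x, hfx (Metric.mem_ball_self hε)⟩
  by_cases huniv : closure A₀ = univ
  · -- then the image of `f` stays away from `y`
    set r : Set I → Set I := fun s => Metric.cthickening (ε / 4) s with hr
    refine ⟨Metric.cthickening (ε / 4) (range f), Metric.isClosed_cthickening, ?_, ?_, ?_⟩
    · exact ⟨f x, Metric.self_subset_cthickening _ (mem_range_self x)⟩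
    · intro hcon
      have hy : y ∈ Metric.cthickening (ε / 4) (range f) := by rw [hcon]; trivial
      have hcomp : IsCompact (range f) := isCompact_range f.continuous
      rw [hcomp.cthickening_eq_biUnion_closedBall (by positivity)] at hy
      obtain ⟨_, ⟨z, rfl⟩, hz⟩ := mem_iUnion₂.1 hy
      apply hxy
      have hzc : z ∈ closure A₀ := by rw [huniv]; trivial
      have : y ∈ A₀ := hthick z hzc (by
        rw [Metric.mem_ball]
        rw [Metric.mem_closedBall] at hz
        linarith)
      exact this
    · rintro _ ⟨z, -, rfl⟩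
      rw [mem_interior]
      refine ⟨Metric.thickening (ε / 4) (range f), Metric.thickening_subset_cthickening _ _,
        Metric.isOpen_thickening, ?_⟩
      exact Metric.self_subset_thickening (by positivity) _ (mem_range_self z)
  · refine ⟨closure A₀, isClosed_closure, hnon.mono subset_closure, huniv, ?_⟩
    rintro _ ⟨z, hz, rfl⟩
    have h1 : f z ∈ A₀ := hthick z hz (Metric.mem_ball_self (by positivity))
    exact interior_mono subset_closure (by rw [hopen.interior_eq]; exact h1)

/-- A continuous self-map of the interval is a uniform limit of transitive maps iff it is chain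
transitive, iff it has no proper trapping region. -/
theorem result (f : C(I, I)) :
    (f ∈ closure transMaps ↔ ChainTransitive f) ∧
    (f ∈ closure transMaps ↔
      ¬ ∃ A : Set I, IsClosed A ∧ A.Nonempty ∧ A ≠ univ ∧ f '' A ⊆ interior A) := by
  have h1 : f ∈ closure transMaps ↔ IsChainTrans f := by
    have : closure transMaps = {g : C(I, I) | IsChainTrans g} := closure_trans
    rw [this]
    exact Iff.rfl
  refine ⟨h1.trans (chainTransitive_iff f).symm, h1.trans ⟨?_, ?_⟩⟩
  · rintro h ⟨A, hA, hne, huniv, hf⟩
    exact not_chain_of_trap hA hne huniv hf h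
  · intro h
    by_contra hcon
    exact h (exists_trap hcon)

end Pool.Agent.Results.MP_c7f692_gt.ClosureChainTransitive
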