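import Mathlib
import Pool.Agent.Lib.Pc7f692.Discrete

open Set Filter Topology
open scoped unitInterval

namespace Pool.Agent.Results.MP_c7f692_gt.DiscreteApproximation

/-- The set `T(I)` of topologically transitive continuous self-maps of the unit interval. -/
def transMaps : Set C(I, I) :=
  {f | ∀ U V : Set I, IsOpen U → IsOpen V → U.Nonempty → V.Nonempty →
    ∃ n : ℕ, 0 < n ∧ ((⇑f)^[n] '' U ∩ V).Nonempty}

/-- Let `X` be any subset of the closure of `T(I)` and let `ε : X → (0,∞)` be continuous.
Then there are continuous maps `Γ 0, Γ 1, …` of `X` into `T(I)`, each `ε`-close to the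
identity, whose images form a locally finite family in `X`; in fact every `g ∈ X` has a ball
missed by all but finitely many of the images. -/
theorem result (X : Set C(I, I)) (hX : X ⊆ closure transMaps) (ε : X → ℝ) (hε : Continuous ε)
    (hε0 : ∀ f, 0 < ε f) :
    ∃ Γ : ℕ → X → C(I, I), (∀ n, Continuous (Γ n)) ∧ (∀ n f, Γ n f ∈ transMaps) ∧
      (∀ n f, dist (Γ n f) f < ε f) ∧
      ∀ g ∈ X, ∃ r > 0, ∃ N : ℕ, ∀ n ≥ N, ∀ f : X, r ≤ dist (Γ n f) g :=
  Pool.Agent.Lib.Pc7f692.discrete_approx hX ε hε hε0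

end Pool.Agent.Results.MP_c7f692_gt.DiscreteApproximation
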