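import Mathlib
import Pool.Agent.Lib.Pc7f692.Operator

open Set Filter Topology
open scoped unitInterval

namespace Pool.Agent.Results.MP_c7f692_gt.RetractionOntoClosure

/-- The set `T(I)` of topologically transitive continuous self-maps of the unit interval. -/
def transMaps : Set C(I, I) :=
  {f | ∀ U V : Set I, IsOpen U → IsOpen V → U.Nonempty → V.Nonempty →
    ∃ n : ℕ, 0 < n ∧ ((⇑f)^[n] '' U ∩ V).Nonempty}

/-- There is a continuous map `R : C(I) × [0,1] → C(I)` with `R(f,0) = f` for every `f` in the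
closure of `T(I)` and with `R(f,t)` transitive as soon as `t ≠ 0` or `f` is not in the closure
of `T(I)`; moreover `R(f,t)` is at distance at most `8 d(f,T(I)) + 2t` from `f`. -/
theorem result : ∃ R : C(C(I, I) × I, C(I, I)),
    (∀ f ∈ closure transMaps, R (f, 0) = f) ∧
    (∀ (f : C(I, I)) (t : I), (f ∉ closure transMaps ∨ t ≠ 0) → R (f, t) ∈ transMaps) ∧
    (∀ (f : C(I, I)) (t : I), dist (R (f, t)) f ≤ 8 * Metric.infDist f transMaps + 2 * t) := by
  have heq : transMaps = {g : C(I, I) | Pool.Agent.Lib.Pc7f692.IsTrans g} := rfl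
  refine ⟨⟨Pool.Agent.Lib.Pc7f692.defo, Pool.Agent.Lib.Pc7f692.continuous_defo⟩, ?_, ?_, ?_⟩
  · intro f hf
    exact Pool.Agent.Lib.Pc7f692.defo_zero hf
  · intro f t h
    exact Pool.Agent.Lib.Pc7f692.isTrans_defo h
  · intro f t
    have := Pool.Agent.Lib.Pc7f692.dist_defo_le (f, t)
    rw [heq]
    show dist (Pool.Agent.Lib.Pc7f692.defo (f, t)) f ≤ _
    have h2 : 2 * (4 * Metric.infDist f {g : C(I, I) | Pool.Agent.Lib.Pc7f692.IsTrans g} + (t : ℝ))
      = 8 * Metric.infDist f {g : C(I, I) | Pool.Agent.Lib.Pc7f692.IsTrans g} + 2 * t := by ring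
    rw [← h2]
    exact this

end Pool.Agent.Results.MP_c7f692_gt.RetractionOntoClosure
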