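import Mathlib
import Pool.Agent.Lib.Pc7f692.Trap

open Set Filter Topology
open scoped unitInterval

namespace Pool.Agent.Results.MP_c7f692_gt.ZSetInSurjections

/-- The set `T(I)` of topologically transitive continuous self-maps of the unit interval. -/
def transMaps : Set C(I, I) :=
  {f | ∀ U V : Set I, IsOpen U → IsOpen V → U.Nonempty → V.Nonempty →
    ∃ n : ℕ, 0 < n ∧ ((⇑f)^[n] '' U ∩ V).Nonempty}

/-- There is a homotopy `H` of `C(I)`, starting at the identity, moving every map by at most
`2t` at time `t`, preserving the set `S(I)` of surjective maps, and such that `H(f,t)` is never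
in the closure of `T(I)` for `t ≠ 0`. -/
theorem result : ∃ H : C(C(I, I) × I, C(I, I)),
    (∀ f : C(I, I), H (f, 0) = f) ∧
    (∀ (f : C(I, I)) (t : I), t ≠ 0 → H (f, t) ∉ closure transMaps) ∧
    (∀ (f : C(I, I)) (t : I), Function.Surjective f → Function.Surjective (H (f, t))) ∧
    (∀ (f : C(I, I)) (t : I), dist (H (f, t)) f ≤ 2 * t) := by
  have hcont := Pool.Agent.Lib.Pc7f692.continuous_glue
    Pool.Agent.Lib.Pc7f692.continuous_tmap Pool.Agent.Lib.Pc7f692.dist_tmap_le
    (Z := C(I, I) × I) (φ := fun z => z.1) (s := fun z => (z.2 : ℝ)) continuous_fst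
    (continuous_subtype_val.comp continuous_snd) (fun z => z.2.2.1)
  refine ⟨⟨_, hcont⟩, ?_, ?_, ?_, ?_⟩
  · intro f
    simp [Pool.Agent.Lib.Pc7f692.glue]
  · intro f t ht
    have hpos : 0 < (t : ℝ) :=
      lt_of_le_of_ne t.2.1 (fun h => ht (Subtype.ext h.symm))
    simp only [ContinuousMap.coe_mk, Pool.Agent.Lib.Pc7f692.glue]
    rw [dif_pos hpos]
    exact Pool.Agent.Lib.Pc7f692.tmap_notMem _
  · intro f t hf
    simp only [ContinuousMap.coe_mk, Pool.Agent.Lib.Pc7f692.glue]
    split_ifs with h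
    · exact Pool.Agent.Lib.Pc7f692.tmap_surj _ hf
    · exact hf
  · intro f t
    simp only [ContinuousMap.coe_mk, Pool.Agent.Lib.Pc7f692.glue]
    split_ifs with h
    · exact Pool.Agent.Lib.Pc7f692.dist_tmap_le _
    · rw [dist_self]
      linarith [t.2.1]

end Pool.Agent.Results.MP_c7f692_gt.ZSetInSurjections
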